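import Pool.Agent.H918.D.LMd

/-! The local maximum principle with unboundedly many punctures: `S_T1 → S_T3 → S_T4`. -/

set_option autoImplicit false

open Filter Topology Metric Set

namespace Pool.Agent.H918.SS

namespace T4

open Classical in
/-- the nearest point of the circle -/
noncomputable def bd (a : ℂ) : ℂ := if a = 0 then 1 else a / (‖a‖ : ℂ)

theorem norm_bd (a : ℂ) : ‖bd a‖ = 1 := by
  unfold bd
  split_ifs with h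
  · simp
  · rw [norm_div, Complex.norm_real, norm_norm, div_self (norm_ne_zero_iff.2 h)]

theorem norm_bd_sub {a : ℂ} (ha : ‖a‖ < 1) : ‖bd a - a‖ = 1 - ‖a‖ := by
  unfold bd
  split_ifs with h
  · simp [h]
  · have h0 : (‖a‖ : ℂ) ≠ 0 := by exact_mod_cast norm_ne_zero_iff.2 h
    have h1 : a / (‖a‖ : ℂ) - a = ((1 - ‖a‖ : ℝ) : ℂ) * (a / ‖a‖) := by
      push_cast
      field_simp
    rw [h1, norm_mul, Complex.norm_real, norm_div, Complex.norm_real, norm_norm,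
      div_self (norm_ne_zero_iff.2 h), mul_one, Real.norm_of_nonneg (by linarith)]

theorem exists_Z' (Z : Finset ℂ) (hZ : ∀ a ∈ Z, ‖a‖ < 1) : ∃ Z' : Finset ℂ,
    (∀ c ∈ Z, c ∈ Z') ∧ (∀ c ∈ Z', ‖c‖ < 1 → c ∈ Z) ∧ (∀ c ∈ Z', ‖c‖ ≤ 1) ∧
    ∀ c ∈ Z, ∃ d ∈ Z', ‖d‖ = 1 ∧ ‖d - c‖ = 1 - ‖c‖ := by
  classical
  refine ⟨Z ∪ Z.image bd, fun c hc => Finset.mem_union_left _ hc, ?_, ?_, ?_⟩
  · intro c hc hc1
    rcases Finset.mem_union.1 hc with h | h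
    · exact h
    · obtain ⟨a, -, rfl⟩ := Finset.mem_image.1 h
      rw [norm_bd] at hc1
      exact absurd hc1 (lt_irrefl _)
  · intro c hc
    rcases Finset.mem_union.1 hc with h | h
    · exact (hZ c h).le
    · obtain ⟨a, -, rfl⟩ := Finset.mem_image.1 h
      rw [norm_bd]
  · intro c hc
    exact ⟨bd c, Finset.mem_union_right _ (Finset.mem_image_of_mem _ hc), norm_bd c,
      norm_bd_sub (hZ c hc)⟩

theorem exists_bound {f : ℂ → ℂ} (hf : ContinuousOn f (closedBall (0 : ℂ) 1)) :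
    ∃ B : ℝ, 0 ≤ B ∧ ∀ z : ℂ, ‖z‖ ≤ 1 → ‖f z‖ ≤ B := by
  obtain ⟨B, hB⟩ := (isCompact_closedBall (0 : ℂ) 1).exists_bound_of_continuousOn hf
  have h0 : (0 : ℂ) ∈ closedBall (0 : ℂ) 1 := mem_closedBall_self zero_le_one
  exact ⟨B, (norm_nonneg _).trans (hB 0 h0), fun z hz => hB z (mem_closedBall_zero_iff.2 hz)⟩

theorem lip1 {ψ : ℂ → ℂ} (hψ : ∀ z ∈ closedBall (0 : ℂ) 1, DifferentiableAt ℂ ψ z) {c : ℂ}
    (hc : (‖c‖ < 1 ∧ ψ c = 0) ∨ ‖c‖ = 1) :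
    ∃ L : ℝ, 0 ≤ L ∧ ∀ z : ℂ, ‖z‖ < 1 → ‖ψ z‖ * (1 - ‖z‖ ^ 2) ≤ L * ‖z - c‖ := by
  rcases hc with ⟨hc, h0⟩ | hc
  · have hcont : ContinuousOn (dslope ψ c) (closedBall (0 : ℂ) 1) := by
      intro z hz
      apply ContinuousAt.continuousWithinAt
      by_cases h : z = c
      · rw [h]
        exact continuousAt_dslope_same.2 (hψ c (mem_closedBall_zero_iff.2 hc.le))
      · exact (continuousAt_dslope_of_ne h).2 (hψ z hz).continuousAt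
    obtain ⟨B, hB0, hB⟩ := exists_bound hcont
    refine ⟨B, hB0, fun z hz => ?_⟩
    have h1 : ψ z = (z - c) * dslope ψ c z := by
      have h2 := sub_smul_dslope ψ c z
      rw [h0, sub_zero, smul_eq_mul] at h2
      exact h2.symm
    have h2 := hB z hz.le
    have h3 : ‖ψ z‖ ≤ B * ‖z - c‖ := by
      rw [h1, norm_mul, mul_comm]
      exact mul_le_mul_of_nonneg_right h2 (norm_nonneg _)
    have h4 : ‖ψ z‖ * (1 - ‖z‖ ^ 2) ≤ ‖ψ z‖ * 1 :=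
      mul_le_mul_of_nonneg_left (by nlinarith [norm_nonneg z]) (norm_nonneg _)
    linarith
  · have hcont : ContinuousOn ψ (closedBall (0 : ℂ) 1) := fun z hz =>
      (hψ z hz).continuousAt.continuousWithinAt
    obtain ⟨B, hB0, hB⟩ := exists_bound hcont
    refine ⟨2 * B, by positivity, fun z hz => ?_⟩
    have h1 : 1 - ‖z‖ ≤ ‖z - c‖ := by
      have := norm_sub_norm_le c z
      rw [hc, norm_sub_rev] at this
      exact this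
    have h2 : 1 - ‖z‖ ^ 2 ≤ 2 * ‖z - c‖ := by nlinarith [norm_nonneg z]
    have h3 := hB z hz.le
    have h4 : 0 ≤ 1 - ‖z‖ ^ 2 := by nlinarith [norm_nonneg z]
    calc ‖ψ z‖ * (1 - ‖z‖ ^ 2) ≤ B * (2 * ‖z - c‖) := by gcongr
      _ = 2 * B * ‖z - c‖ := by ring

theorem pf_le {a b z : ℂ} (ha : ‖a‖ ≤ 1) (hb : ‖b‖ ≤ 1) (hz : ‖z‖ < 1) (hza : z ≠ a)
    (hzb : z ≠ b) : pf a b z ≤ 4 / (‖z - a‖ ^ 4 * ‖z - b‖ ^ 2) := by
  have h1 : 0 < ‖z - a‖ := norm_pos_iff.2 (sub_ne_zero.2 hza)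
  have h2 : 0 < ‖z - b‖ := norm_pos_iff.2 (sub_ne_zero.2 hzb)
  have h3 : max ‖z - a‖ ‖b - a‖ ≤ 2 := by
    apply max_le
    · have := norm_sub_le z a
      linarith
    · have := norm_sub_le b a
      linarith
  have h4 : 0 ≤ max ‖z - a‖ ‖b - a‖ := le_max_of_le_left (norm_nonneg _)
  have h5 : 0 ≤ |Real.log (‖z - a‖ / ‖b - a‖)| := abs_nonneg _
  unfold pf
  apply div_le_div₀ (by norm_num) _ (by positivity)
  · have : 0 < ‖z - a‖ ^ 4 * ‖z - b‖ ^ 2 := by positivity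
    nlinarith
  · nlinarith

theorem pair_bound {ψ : ℂ → ℂ} {a b : ℂ} (hab : a ≠ b) (ha : ‖a‖ ≤ 1) (hb : ‖b‖ ≤ 1) {L : ℝ}
    (h1 : ∀ z : ℂ, ‖z‖ < 1 → ‖ψ z‖ * (1 - ‖z‖ ^ 2) ≤ L * ‖z - a‖)
    (h2 : ∀ z : ℂ, ‖z‖ < 1 → ‖ψ z‖ * (1 - ‖z‖ ^ 2) ≤ L * ‖z - b‖) :
    ∀ z : ℂ, ‖z‖ < 1 → z ≠ a → z ≠ b →
      (‖ψ z‖ * (1 - ‖z‖ ^ 2)) ^ 4 * pf a b z ≤ 16 * L ^ 4 / ‖b - a‖ ^ 2 := by
  intro z hz hza hzb
  have hρ : 0 < ‖z - a‖ := norm_pos_iff.2 (sub_ne_zero.2 hza)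
  have hd : 0 < ‖z - b‖ := norm_pos_iff.2 (sub_ne_zero.2 hzb)
  have hr : 0 < ‖b - a‖ := norm_pos_iff.2 (sub_ne_zero.2 hab.symm)
  have h3 := pf_le ha hb hz hza hzb
  obtain ⟨X, hX⟩ : ∃ X, X = ‖ψ z‖ * (1 - ‖z‖ ^ 2) := ⟨_, rfl⟩
  have hX0 : 0 ≤ X := by
    rw [hX]
    exact mul_nonneg (norm_nonneg _) (by nlinarith [norm_nonneg z])
  have hXa : X ≤ L * ‖z - a‖ := by rw [hX]; exact h1 z hz
  have hXb : X ≤ L * ‖z - b‖ := by rw [hX]; exact h2 z hz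
  rw [← hX]
  obtain ⟨ρ, hρd⟩ : ∃ ρ, ρ = ‖z - a‖ := ⟨_, rfl⟩
  obtain ⟨d, hdd⟩ : ∃ d, d = ‖z - b‖ := ⟨_, rfl⟩
  obtain ⟨r, hrd⟩ : ∃ r, r = ‖b - a‖ := ⟨_, rfl⟩
  have htri : r ≤ ρ + d := by
    rw [hrd, hρd, hdd]
    have : b - a = (z - a) - (z - b) := by ring
    rw [this]
    exact norm_sub_le _ _
  rw [← hρd, ← hdd] at h3
  rw [← hρd] at hρ hXa
  rw [← hdd] at hd hXb
  rw [← hrd] at hr ⊢
  have h4 : X ^ 4 * pf a b z ≤ X ^ 4 * (4 / (ρ ^ 4 * d ^ 2)) := by gcongr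
  refine h4.trans ?_
  rcases le_total (r / 2) d with h | h
  · have h5 : X ^ 4 ≤ (L * ρ) ^ 4 := by gcongr
    have h6 : X ^ 4 * (4 / (ρ ^ 4 * d ^ 2)) ≤ (L * ρ) ^ 4 * (4 / (ρ ^ 4 * d ^ 2)) := by gcongr
    have h7 : (L * ρ) ^ 4 * (4 / (ρ ^ 4 * d ^ 2)) = 4 * L ^ 4 / d ^ 2 := by
      field_simp
    have h8 : 4 * L ^ 4 / d ^ 2 ≤ 4 * L ^ 4 / (r / 2) ^ 2 := by gcongr
    have h9 : 4 * L ^ 4 / (r / 2) ^ 2 = 16 * L ^ 4 / r ^ 2 := by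
      field_simp
      ring
    linarith
  · have hρr : r / 2 ≤ ρ := by linarith
    have h5 : X ^ 4 ≤ (L * ρ) ^ 2 * (L * d) ^ 2 := by
      have h51 : X ^ 2 ≤ (L * ρ) ^ 2 := by gcongr
      have h52 : X ^ 2 ≤ (L * d) ^ 2 := by gcongr
      have h53 : X ^ 4 = X ^ 2 * X ^ 2 := by ring
      rw [h53]
      exact mul_le_mul h51 h52 (by positivity) (by positivity)
    have h6 : X ^ 4 * (4 / (ρ ^ 4 * d ^ 2)) ≤
        (L * ρ) ^ 2 * (L * d) ^ 2 * (4 / (ρ ^ 4 * d ^ 2)) := by gcongr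
    have h7 : (L * ρ) ^ 2 * (L * d) ^ 2 * (4 / (ρ ^ 4 * d ^ 2)) = 4 * L ^ 4 / ρ ^ 2 := by
      field_simp
    have h8 : 4 * L ^ 4 / ρ ^ 2 ≤ 4 * L ^ 4 / (r / 2) ^ 2 := by gcongr
    have h9 : 4 * L ^ 4 / (r / 2) ^ 2 = 16 * L ^ 4 / r ^ 2 := by
      field_simp
      ring
    linarith

theorem bounded {ψ : ℂ → ℂ} (hψ : ∀ z ∈ closedBall (0 : ℂ) 1, DifferentiableAt ℂ ψ z)
    {Z Z' : Finset ℂ} (hZψ : ∀ a ∈ Z, ψ a = 0)
    (hZ' : ∀ c ∈ Z', ‖c‖ < 1 → c ∈ Z) (hZ'1 : ∀ c ∈ Z', ‖c‖ ≤ 1) :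
    ∃ T : ℝ, 0 ≤ T ∧ ∀ z : ℂ, ‖z‖ < 1 → z ∉ Z →
      (‖ψ z‖ * (1 - ‖z‖ ^ 2)) ^ 4 * gf Z' z ≤ T := by
  classical
  have hcont : ContinuousOn ψ (closedBall (0 : ℂ) 1) := fun z hz =>
    (hψ z hz).continuousAt.continuousWithinAt
  obtain ⟨B, hB0, hB⟩ := exists_bound hcont
  have hc : ∀ c : ℂ, ∃ L : ℝ, 0 ≤ L ∧ (c ∈ Z' → ∀ z : ℂ, ‖z‖ < 1 →
      ‖ψ z‖ * (1 - ‖z‖ ^ 2) ≤ L * ‖z - c‖) := by
    intro c
    by_cases h : c ∈ Z'
    · have h1 : (‖c‖ < 1 ∧ ψ c = 0) ∨ ‖c‖ = 1 := by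
        rcases lt_or_eq_of_le (hZ'1 c h) with h2 | h2
        · exact Or.inl ⟨h2, hZψ c (hZ' c h h2)⟩
        · exact Or.inr h2
      obtain ⟨L, hL0, hL⟩ := lip1 hψ h1
      exact ⟨L, hL0, fun _ => hL⟩
    · exact ⟨0, le_rfl, fun h' => absurd h' h⟩
  choose L hL0 hL using hc
  obtain ⟨T, hT⟩ : ∃ T : ℂ × ℂ → ℝ, T = fun p => 16 * (L p.1 + L p.2) ^ 4 / ‖p.2 - p.1‖ ^ 2 :=
    ⟨_, rfl⟩
  have hT0 : ∀ p, 0 ≤ T p := by
    intro p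
    rw [hT]
    have h1 := hL0 p.1
    have h2 := hL0 p.2
    positivity
  refine ⟨B ^ 4 + ∑ p ∈ Z' ×ˢ Z', T p, ?_, ?_⟩
  · have := Finset.sum_nonneg fun p (_ : p ∈ Z' ×ˢ Z') => hT0 p
    positivity
  · intro z hz hzZ
    have hh0 : 0 ≤ 1 - ‖z‖ ^ 2 := by nlinarith [norm_nonneg z]
    have hh1 : 1 - ‖z‖ ^ 2 ≤ 1 := by nlinarith [norm_nonneg z]
    have hsum := Finset.sum_nonneg fun p (_ : p ∈ Z' ×ˢ Z') => hT0 p
    have hzZ' : z ∉ Z' := fun h => hzZ (hZ' z h hz)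
    rcases gf_eq Z' z with h | ⟨a, ha, b, hb, hab, h⟩
    · rw [h, mul_one]
      have h1 : ‖ψ z‖ * (1 - ‖z‖ ^ 2) ≤ B * 1 :=
        mul_le_mul (hB z hz.le) hh1 hh0 hB0
      have h2 : (‖ψ z‖ * (1 - ‖z‖ ^ 2)) ^ 4 ≤ (B * 1) ^ 4 := by gcongr
      rw [mul_one] at h2
      linarith
    · rw [h]
      have hza : z ≠ a := fun e => hzZ' (by rw [e]; exact ha)
      have hzb : z ≠ b := fun e => hzZ' (by rw [e]; exact hb)
      have h1 := pair_bound (ψ := ψ) hab (hZ'1 a ha) (hZ'1 b hb) (L := L a + L b)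
        (fun z hz => (hL a ha z hz).trans
          (mul_le_mul_of_nonneg_right (by linarith [hL0 b]) (norm_nonneg _)))
        (fun z hz => (hL b hb z hz).trans
          (mul_le_mul_of_nonneg_right (by linarith [hL0 a]) (norm_nonneg _))) z hz hza hzb
      have h2 : T (a, b) ≤ ∑ p ∈ Z' ×ˢ Z', T p :=
        Finset.single_le_sum (fun p _ => hT0 p) (Finset.mk_mem_product ha hb)
      have h3 : T (a, b) = 16 * (L a + L b) ^ 4 / ‖b - a‖ ^ 2 := by rw [hT]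
      rw [h3] at h2
      have h4 : 0 ≤ B ^ 4 := by positivity
      linarith

/-- the lower bound of the gauge near a puncture -/
theorem pf_ge {a d z : ℂ} (hz : ‖z‖ < 1 / 2) (hd : ‖d‖ = 1) (hda : ‖d - a‖ = 1 - ‖a‖)
    (hza : z ≠ a) (hρ : ‖z - a‖ < 1 / 8) : 1 / (4 * ‖z - a‖) ≤ pf a d z := by
  obtain ⟨ρ, hρd⟩ : ∃ ρ, ρ = ‖z - a‖ := ⟨_, rfl⟩
  obtain ⟨s, hs⟩ : ∃ s, s = ‖d - a‖ := ⟨_, rfl⟩
  obtain ⟨e, he⟩ : ∃ e, e = ‖z - d‖ := ⟨_, rfl⟩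
  have hρ0 : 0 < ρ := by rw [hρd]; exact norm_pos_iff.2 (sub_ne_zero.2 hza)
  have he0 : 0 < e := by
    rw [he]
    apply norm_pos_iff.2 (sub_ne_zero.2 _)
    rintro rfl
    rw [hd] at hz
    norm_num at hz
  have hna : ‖a‖ ≤ ‖z‖ + ρ := by
    rw [hρd]
    have : a = z - (z - a) := by ring
    conv_lhs => rw [this]
    exact norm_sub_le _ _
  rw [← hρd] at hρ ⊢
  have hs1 : 3 / 8 < s := by rw [hs, hda]; linarith
  have hs2 : s ≤ 1 := by rw [hs, hda]; linarith [norm_nonneg a]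
  have hes : e ≤ 2 * s := by
    have : e ≤ ρ + s := by
      rw [he, hρd, hs]
      have : z - d = (z - a) - (d - a) := by ring
      rw [this]
      exact norm_sub_le _ _
    linarith
  unfold pf
  rw [← hρd, ← hs, ← he]
  have hmax : max ρ s = s := max_eq_right (by linarith)
  rw [hmax]
  have hlog : 1 + |Real.log (ρ / s)| ≤ 1 / ρ := by
    have h1 : ρ / s ≤ 1 := by
      rw [div_le_one (by linarith)]
      linarith
    have h2 : Real.log (ρ / s) ≤ 0 := Real.log_nonpos (by positivity) h1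
    rw [abs_of_nonpos h2]
    have h3 : -Real.log (ρ / s) = Real.log (s / ρ) := by
      rw [← Real.log_inv, inv_div]
    rw [h3]
    have h4 : Real.log (s / ρ) ≤ s / ρ - 1 := Real.log_le_sub_one_of_pos (by positivity)
    have h5 : s / ρ ≤ 1 / ρ := by gcongr
    linarith
  rw [div_le_div_iff₀ (by positivity) (by positivity), one_mul]
  have h6 : ρ ^ 4 * e ^ 2 * (1 + |Real.log (ρ / s)|) ≤ ρ ^ 4 * (2 * s) ^ 2 * (1 / ρ) := by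
    gcongr
  have h7 : ρ ^ 4 * (2 * s) ^ 2 * (1 / ρ) = 4 * s ^ 2 * ρ ^ 3 := by
    field_simp
    ring
  have h8 : 4 * s ^ 2 * ρ ^ 3 ≤ s ^ 2 * (4 * ρ) := by
    have h9 : ρ ^ 3 ≤ ρ := by
      have : ρ ^ 2 ≤ 1 := by nlinarith
      calc ρ ^ 3 = ρ ^ 2 * ρ := by ring
        _ ≤ 1 * ρ := by gcongr
        _ = ρ := one_mul _
    nlinarith [sq_nonneg s]
  linarith


/-- the function whose supremum is taken -/
noncomputable def FF (Z' : Finset ℂ) (u : ℂ → ℝ) (ψ G : ℂ → ℂ) (n : ℕ) (γ : ℝ) (z : ℂ) : ℝ :=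
  u z * (‖ψ z‖ ^ (4 * n) * ‖G z‖) * gf Z' z ^ n * (1 - ‖z‖ ^ 2) ^ (4 * n) *
    Real.exp (γ * ‖z‖ ^ 2)

/-- the hypothesis on `u` -/
def Hyp (κ K : ℝ) (Z : Finset ℂ) (u : ℂ → ℝ) : Prop :=
  ∀ E : ℂ → ℂ, DifferentiableOn ℂ E (ball 0 1) → (∀ w ∈ ball (0 : ℂ) 1, ‖E w‖ < 1 ∧ E w ∉ Z) →
    ∀ (G : ℂ → ℂ) (B : ℝ), DifferentiableOn ℂ G (ball 0 1) →
      (∀ w : ℂ, ‖w‖ = κ → u (E w) * ‖G w‖ ≤ B) → u (E 0) * ‖G 0‖ ≤ K * B

theorem sq_norm_eq (z e : ℂ) :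
    ‖e‖ ^ 2 = ‖z‖ ^ 2 + 2 * ((starRingEnd ℂ) z * (e - z)).re + ‖e - z‖ ^ 2 := by
  rw [Complex.sq_norm, Complex.sq_norm, Complex.sq_norm, Complex.normSq_apply,
    Complex.normSq_apply, Complex.normSq_apply]
  simp only [Complex.mul_re, Complex.conj_re, Complex.conj_im, Complex.sub_re, Complex.sub_im]
  ring

theorem norm_mult (γ : ℝ) (z e : ℂ) :
    ‖Complex.exp (((2 * γ : ℝ) : ℂ) * ((starRingEnd ℂ) z * (e - z)))‖ =
      Real.exp (2 * γ * ((starRingEnd ℂ) z * (e - z)).re) := by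
  rw [Complex.norm_exp, Complex.re_ofReal_mul]

theorem ed_zero (a b z : ℂ) : ed a b z 0 = z := by
  unfold ed
  rw [mul_zero, Complex.exp_zero]
  ring

theorem em_zero (a b z : ℂ) : em a b z 0 = 0 := by
  unfold em
  ring

theorem differentiable_ed (a b z : ℂ) : Differentiable ℂ (ed a b z) := by
  unfold ed
  fun_prop

theorem differentiable_em (a b z : ℂ) : Differentiable ℂ (em a b z) := by
  unfold em
  fun_prop

theorem caseA {κ K : ℝ} (hκ0 : 0 < κ) (hκ1 : κ < 1) {Z Z' : Finset ℂ} {u : ℂ → ℝ}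
    (hu : ∀ z, 0 ≤ u z) (hyp : Hyp κ K Z u) {ψ G : ℂ → ℂ}
    (hψ : ∀ z ∈ closedBall (0 : ℂ) 1, DifferentiableAt ℂ ψ z)
    (hG : ∀ z ∈ closedBall (0 : ℂ) 1, DifferentiableAt ℂ G z) {n : ℕ} {γ S g0 t η : ℝ}
    (hγ : 0 ≤ γ) (hg0 : g0 = (1 / 8192) ^ 2 / 12 * κ ^ 2) (ht : t = Real.exp (g0 / 2))
    (hη : η = g0 / 16)
    (hS : ∀ z : ℂ, ‖z‖ < 1 → z ∉ Z → FF Z' u ψ G n γ z ≤ S) (hT1 : S_T1) {a b z : ℂ}
    (ha : a ∈ Z') (hb : b ∈ Z') (hab : a ≠ b) (hz : ‖z‖ < 1) (hza : z ≠ a) (hzb : z ≠ b)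
    (hgf : gf Z' z = pf a b z) (hZZ' : ∀ c ∈ Z, c ∈ Z')
    (hT3 : ∀ w : ℂ, ‖w‖ ≤ 1 → ed a b z w ∉ Z' ∧ ‖ed a b z w‖ < 1 ∧
      (1 - η) * (1 - ‖z‖ ^ 2) ≤ 1 - ‖ed a b z w‖ ^ 2) :
    FF Z' u ψ G n γ z * t ^ n ≤ K * S := by
  have hg00 : 0 < g0 := by rw [hg0]; positivity
  have hg01 : g0 ≤ 1 := by
    rw [hg0]
    have : κ ^ 2 ≤ 1 := by nlinarith
    nlinarith
  have ht0 : 0 < t := by rw [ht]; exact Real.exp_pos _
  have ht2 : t ^ 2 = Real.exp g0 := by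
    rw [ht, ← Real.exp_nat_mul]
    congr 1
    push_cast
    ring
  have ht1 : 1 + g0 / 2 ≤ t := by
    rw [ht, add_comm]
    exact Real.add_one_le_exp _
  have htη : 1 ≤ t * (1 - η) ^ 4 := by
    have h1 : 1 + ((4 : ℕ) : ℝ) * (-η) ≤ (1 + (-η)) ^ 4 :=
      one_add_mul_le_pow (by rw [hη]; linarith) 4
    have h2 : 1 - g0 / 4 ≤ (1 - η) ^ 4 := by
      have h3 : (1 + (-η)) ^ 4 = (1 - η) ^ 4 := by ring
      rw [h3] at h1
      rw [hη] at h1 ⊢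
      push_cast at h1
      linarith
    have h3 : (1 + g0 / 2) * (1 - g0 / 4) ≤ t * (1 - η) ^ 4 :=
      mul_le_mul ht1 h2 (by linarith) ht0.le
    nlinarith
  have hh0 : 0 < 1 - ‖z‖ ^ 2 := by nlinarith [norm_nonneg z]
  have hpf : 0 < pf a b z := by
    have := one_le_gf Z' z
    rw [hgf] at this
    linarith
  obtain ⟨P, hP⟩ : ∃ P, P = pf a b z ^ n * (1 - ‖z‖ ^ 2) ^ (4 * n) *
    Real.exp (γ * ‖z‖ ^ 2) * t ^ n := ⟨_, rfl⟩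
  have hP0 : 0 < P := by
    rw [hP]
    have := Real.exp_pos (γ * ‖z‖ ^ 2)
    positivity
  obtain ⟨G1, hG1⟩ : ∃ G1 : ℂ → ℂ, G1 = fun w => ψ (ed a b z w) ^ (4 * n) * G (ed a b z w) *
    Complex.exp (em a b z w) ^ n * ((z - b) / (ed a b z w - b)) ^ (2 * n) *
    Complex.exp (((2 * γ : ℝ) : ℂ) * ((starRingEnd ℂ) z * (ed a b z w - z))) := ⟨_, rfl⟩
  have hnorm : ∀ w, ‖G1 w‖ = ‖ψ (ed a b z w)‖ ^ (4 * n) * ‖G (ed a b z w)‖ *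
      ‖Complex.exp (em a b z w)‖ ^ n * (‖z - b‖ / ‖ed a b z w - b‖) ^ (2 * n) *
      Real.exp (2 * γ * ((starRingEnd ℂ) z * (ed a b z w - z)).re) := by
    intro w
    rw [hG1]
    simp only [norm_mul, norm_pow, norm_div, norm_mult]
  have hE := differentiable_ed a b z
  have hEball : ∀ w ∈ ball (0 : ℂ) 1, ed a b z w ∈ closedBall (0 : ℂ) 1 := fun w hw =>
    mem_closedBall_zero_iff.2 (hT3 w (mem_ball_zero_iff.1 hw).le).2.1.le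
  have hdG1 : DifferentiableOn ℂ G1 (ball 0 1) := by
    intro w hw
    apply DifferentiableAt.differentiableWithinAt
    have h1 : DifferentiableAt ℂ (fun w => ψ (ed a b z w)) w :=
      (hψ _ (hEball w hw)).comp w (hE w)
    have h2 : DifferentiableAt ℂ (fun w => G (ed a b z w)) w :=
      (hG _ (hEball w hw)).comp w (hE w)
    have h3 : ed a b z w - b ≠ 0 := by
      rw [sub_ne_zero]
      intro h
      exact (hT3 w (mem_ball_zero_iff.1 hw).le).1 (by rw [h]; exact hb)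
    have h4 : DifferentiableAt ℂ (fun w => (z - b) / (ed a b z w - b)) w :=
      (differentiableAt_const _).div ((hE w).sub_const b) h3
    rw [hG1]
    exact ((((h1.pow (4 * n)).mul h2).mul ((differentiable_em a b z w).cexp.pow n)).mul
      (h4.pow (2 * n))).mul (((differentiableAt_const _).mul
        ((differentiableAt_const _).mul ((hE w).sub_const z))).cexp)
  have hmain : ∀ w : ℂ, ‖w‖ = κ → u (ed a b z w) * ‖G1 w‖ ≤ S / P := by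
    intro w hw
    have hw1 : ‖w‖ ≤ 1 := by linarith
    obtain ⟨h1, h2, h3⟩ := hT3 w hw1
    have hEb : ed a b z w ≠ b := fun h => h1 (by rw [h]; exact hb)
    have hFE := hS (ed a b z w) h2 (fun h => h1 (hZZ' _ h))
    have hq := hT1 a b z w hab hza hw1 hEb
    have hgE := pf_le_gf ha hb hab (ed a b z w)
    rw [hw, ← hg0, ← ht2] at hq
    rw [le_div_iff₀ hP0]
    refine le_trans ?_ hFE
    obtain ⟨E, hEd⟩ : ∃ E, E = ed a b z w := ⟨_, rfl⟩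
    have hn := hnorm w
    rw [← hEd] at h2 h3 hq hgE hn ⊢
    obtain ⟨m, hm⟩ : ∃ m, m = ‖Complex.exp (em a b z w)‖ := ⟨_, rfl⟩
    obtain ⟨r, hr⟩ : ∃ r, r = ‖z - b‖ / ‖E - b‖ := ⟨_, rfl⟩
    rw [← hm, ← hr] at hq hn
    have hm0 : 0 ≤ m := by rw [hm]; positivity
    have hr0 : 0 ≤ r := by rw [hr]; positivity
    have hhE : 0 < 1 - ‖E‖ ^ 2 := by nlinarith [norm_nonneg E]
    have k1 : (pf a b z * m * r ^ 2 * t ^ 2) ^ n ≤ gf Z' E ^ n := by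
      apply pow_le_pow_left₀ (by positivity)
      linarith
    have k2 : (1 - ‖z‖ ^ 2) ^ (4 * n) ≤ t ^ n * (1 - ‖E‖ ^ 2) ^ (4 * n) := by
      rw [pow_mul, pow_mul, ← mul_pow]
      apply pow_le_pow_left₀ (by positivity)
      have h5 : ((1 - η) * (1 - ‖z‖ ^ 2)) ^ 4 ≤ (1 - ‖E‖ ^ 2) ^ 4 := by
        apply pow_le_pow_left₀ _ h3
        apply mul_nonneg _ hh0.le
        rw [hη]
        linarith
      have h6 : t * ((1 - η) * (1 - ‖z‖ ^ 2)) ^ 4 ≤ t * (1 - ‖E‖ ^ 2) ^ 4 :=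
        mul_le_mul_of_nonneg_left h5 ht0.le
      have h7 : t * ((1 - η) * (1 - ‖z‖ ^ 2)) ^ 4 = t * (1 - η) ^ 4 * (1 - ‖z‖ ^ 2) ^ 4 := by
        ring
      have h8 : 1 * (1 - ‖z‖ ^ 2) ^ 4 ≤ t * (1 - η) ^ 4 * (1 - ‖z‖ ^ 2) ^ 4 :=
        mul_le_mul_of_nonneg_right htη (by positivity)
      linarith
    have k3 : Real.exp (γ * ‖z‖ ^ 2) * Real.exp (2 * γ * ((starRingEnd ℂ) z * (E - z)).re) ≤
        Real.exp (γ * ‖E‖ ^ 2) := by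
      rw [← Real.exp_add]
      apply Real.exp_le_exp.2
      rw [sq_norm_eq z E]
      have : 0 ≤ γ * ‖E - z‖ ^ 2 := by positivity
      nlinarith
    have hq0 : 0 ≤ u E * (‖ψ E‖ ^ (4 * n) * ‖G E‖) := by
      have := hu E
      positivity
    rw [hn, hP]
    unfold FF
    calc u E * (‖ψ E‖ ^ (4 * n) * ‖G E‖ * m ^ n * r ^ (2 * n) *
          Real.exp (2 * γ * ((starRingEnd ℂ) z * (E - z)).re)) *
          (pf a b z ^ n * (1 - ‖z‖ ^ 2) ^ (4 * n) * Real.exp (γ * ‖z‖ ^ 2) * t ^ n)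
        ≤ u E * (‖ψ E‖ ^ (4 * n) * ‖G E‖ * m ^ n * r ^ (2 * n) *
          Real.exp (2 * γ * ((starRingEnd ℂ) z * (E - z)).re)) *
          (pf a b z ^ n * (t ^ n * (1 - ‖E‖ ^ 2) ^ (4 * n)) * Real.exp (γ * ‖z‖ ^ 2) * t ^ n) := by
          have := hu E
          gcongr
      _ = u E * (‖ψ E‖ ^ (4 * n) * ‖G E‖) * (pf a b z * m * r ^ 2 * t ^ 2) ^ n *
          (1 - ‖E‖ ^ 2) ^ (4 * n) * (Real.exp (γ * ‖z‖ ^ 2) *
            Real.exp (2 * γ * ((starRingEnd ℂ) z * (E - z)).re)) := by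
          rw [mul_pow, mul_pow, mul_pow, ← pow_mul, ← pow_mul, mul_comm 2 n, pow_mul t n 2]
          ring
      _ ≤ u E * (‖ψ E‖ ^ (4 * n) * ‖G E‖) * gf Z' E ^ n *
          (1 - ‖E‖ ^ 2) ^ (4 * n) * Real.exp (γ * ‖E‖ ^ 2) := by
          have hgf0 : 0 ≤ gf Z' E := zero_le_one.trans (one_le_gf Z' E)
          gcongr
  have hfin := hyp (ed a b z) hE.differentiableOn (fun w hw => by
    obtain ⟨h1, h2, -⟩ := hT3 w (mem_ball_zero_iff.1 hw).le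
    exact ⟨h2, fun h => h1 (hZZ' _ h)⟩) G1 (S / P) hdG1 hmain
  rw [ed_zero] at hfin
  have hG10 : ‖G1 0‖ = ‖ψ z‖ ^ (4 * n) * ‖G z‖ := by
    rw [hnorm 0, ed_zero, em_zero]
    have h1 : ‖z - b‖ ≠ 0 := norm_ne_zero_iff.2 (sub_ne_zero.2 hzb)
    rw [div_self h1]
    simp
  rw [hG10] at hfin
  have h5 : FF Z' u ψ G n γ z * t ^ n = u z * (‖ψ z‖ ^ (4 * n) * ‖G z‖) * P := by
    unfold FF
    rw [hP, hgf]
    ring
  rw [h5]
  have h6 : u z * (‖ψ z‖ ^ (4 * n) * ‖G z‖) * P ≤ K * (S / P) * P :=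
    mul_le_mul_of_nonneg_right hfin hP0.le
  have h7 : K * (S / P) * P = K * S := by
    field_simp
  linarith

theorem caseC {κ K : ℝ} (hκ0 : 0 < κ) (hκ1 : κ < 1) {Z Z' : Finset ℂ} {u : ℂ → ℝ}
    (hu : ∀ z, 0 ≤ u z) (hyp : Hyp κ K Z u) {ψ G : ℂ → ℂ}
    (hψ : ∀ z ∈ closedBall (0 : ℂ) 1, DifferentiableAt ℂ ψ z)
    (hG : ∀ z ∈ closedBall (0 : ℂ) 1, DifferentiableAt ℂ G z) {n : ℕ} {γ S M2 ρ : ℝ}
    (hM2 : 0 ≤ M2) (hρ0 : 0 < ρ) (hρ1 : ρ ≤ 1 / 8)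
    (hS : ∀ z : ℂ, ‖z‖ < 1 → z ∉ Z → FF Z' u ψ G n γ z ≤ S) {z : ℂ} (hz : ‖z‖ < 1 / 2)
    (hgf : gf Z' z ≤ M2) (hρ : ∀ a ∈ Z, ρ ≤ ‖z - a‖) :
    FF Z' u ψ G n γ z * (Real.exp (γ * (ρ * κ) ^ 2) * (7 / 16) ^ (4 * n)) ≤ K * S * M2 ^ n := by
  obtain ⟨P, hP⟩ : ∃ P : ℝ, P = (7 / 16) ^ (4 * n) * Real.exp (γ * ‖z‖ ^ 2) *
    Real.exp (γ * (ρ * κ) ^ 2) := ⟨_, rfl⟩
  have hP0 : 0 < P := by
    rw [hP]
    positivity
  obtain ⟨E, hE⟩ : ∃ E : ℂ → ℂ, E = fun w => z + (ρ : ℂ) * w := ⟨_, rfl⟩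
  have hEd : Differentiable ℂ E := by
    rw [hE]
    fun_prop
  have hEz : ∀ w, E w - z = (ρ : ℂ) * w := fun w => by rw [hE]; ring
  have hEzn : ∀ w, ‖E w - z‖ = ρ * ‖w‖ := fun w => by
    rw [hEz, norm_mul, Complex.norm_real, Real.norm_of_nonneg hρ0.le]
  have hEn : ∀ w : ℂ, ‖w‖ ≤ 1 → ‖E w‖ ≤ 5 / 8 := by
    intro w hw
    have h1 : E w = z + (E w - z) := by ring
    have h2 : ‖E w‖ ≤ ‖z‖ + ‖E w - z‖ := by
      conv_lhs => rw [h1]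
      exact norm_add_le _ _
    rw [hEzn] at h2
    nlinarith
  have hEZ : ∀ w : ℂ, ‖w‖ < 1 → E w ∉ Z := by
    intro w hw h
    have h1 := hρ _ h
    rw [norm_sub_rev, hEzn] at h1
    nlinarith
  have hEball : ∀ w ∈ ball (0 : ℂ) 1, E w ∈ closedBall (0 : ℂ) 1 := fun w hw =>
    mem_closedBall_zero_iff.2 (by have := hEn w (mem_ball_zero_iff.1 hw).le; linarith)
  obtain ⟨G1, hG1⟩ : ∃ G1 : ℂ → ℂ, G1 = fun w => ψ (E w) ^ (4 * n) * G (E w) *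
    Complex.exp (((2 * γ : ℝ) : ℂ) * ((starRingEnd ℂ) z * (E w - z))) := ⟨_, rfl⟩
  have hnorm : ∀ w, ‖G1 w‖ = ‖ψ (E w)‖ ^ (4 * n) * ‖G (E w)‖ *
      Real.exp (2 * γ * ((starRingEnd ℂ) z * (E w - z)).re) := by
    intro w
    rw [hG1]
    simp only [norm_mul, norm_pow, norm_mult]
  have hdG1 : DifferentiableOn ℂ G1 (ball 0 1) := by
    intro w hw
    apply DifferentiableAt.differentiableWithinAt
    have h1 : DifferentiableAt ℂ (fun w => ψ (E w)) w := (hψ _ (hEball w hw)).comp w (hEd w)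
    have h2 : DifferentiableAt ℂ (fun w => G (E w)) w := (hG _ (hEball w hw)).comp w (hEd w)
    rw [hG1]
    exact ((h1.pow (4 * n)).mul h2).mul (((differentiableAt_const _).mul
        ((differentiableAt_const _).mul ((hEd w).sub_const z))).cexp)
  have hmain : ∀ w : ℂ, ‖w‖ = κ → u (E w) * ‖G1 w‖ ≤ S / P := by
    intro w hw
    have hw1 : ‖w‖ < 1 := by linarith
    have h2 := hEn w hw1.le
    have hFE := hS (E w) (by linarith) (hEZ w hw1)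
    have h3 : ‖E w - z‖ = ρ * κ := by rw [hEzn, hw]
    rw [le_div_iff₀ hP0]
    refine le_trans ?_ hFE
    rw [hnorm, hP]
    have hhE : 7 / 16 ≤ 1 - ‖E w‖ ^ 2 := by nlinarith [norm_nonneg (E w)]
    have k1 : (1 : ℝ) ≤ gf Z' (E w) ^ n := one_le_pow₀ (one_le_gf Z' (E w))
    have k2 : ((7 : ℝ) / 16) ^ (4 * n) ≤ (1 - ‖E w‖ ^ 2) ^ (4 * n) :=
      pow_le_pow_left₀ (by norm_num) hhE _
    have k3 : Real.exp (γ * ‖z‖ ^ 2) * Real.exp (γ * (ρ * κ) ^ 2) *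
        Real.exp (2 * γ * ((starRingEnd ℂ) z * (E w - z)).re) = Real.exp (γ * ‖E w‖ ^ 2) := by
      rw [← Real.exp_add, ← Real.exp_add, sq_norm_eq z (E w), h3]
      congr 1
      ring
    have huE := hu (E w)
    unfold FF
    rw [← k3]
    calc u (E w) * (‖ψ (E w)‖ ^ (4 * n) * ‖G (E w)‖ *
          Real.exp (2 * γ * ((starRingEnd ℂ) z * (E w - z)).re)) *
          ((7 / 16) ^ (4 * n) * Real.exp (γ * ‖z‖ ^ 2) * Real.exp (γ * (ρ * κ) ^ 2))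
        = u (E w) * (‖ψ (E w)‖ ^ (4 * n) * ‖G (E w)‖) * 1 * (7 / 16) ^ (4 * n) *
          (Real.exp (γ * ‖z‖ ^ 2) * Real.exp (γ * (ρ * κ) ^ 2) *
            Real.exp (2 * γ * ((starRingEnd ℂ) z * (E w - z)).re)) := by ring
      _ ≤ u (E w) * (‖ψ (E w)‖ ^ (4 * n) * ‖G (E w)‖) * gf Z' (E w) ^ n *
          (1 - ‖E w‖ ^ 2) ^ (4 * n) *
          (Real.exp (γ * ‖z‖ ^ 2) * Real.exp (γ * (ρ * κ) ^ 2) *
            Real.exp (2 * γ * ((starRingEnd ℂ) z * (E w - z)).re)) := by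
          gcongr
  have hfin := hyp E hEd.differentiableOn (fun w hw => by
    have h1 := mem_ball_zero_iff.1 hw
    exact ⟨by have := hEn w h1.le; linarith, hEZ w h1⟩) G1 (S / P) hdG1 hmain
  have hE0 : E 0 = z := by rw [hE]; simp
  have hG10 : ‖G1 0‖ = ‖ψ z‖ ^ (4 * n) * ‖G z‖ := by
    rw [hnorm 0, hE0]
    simp
  rw [hE0, hG10] at hfin
  have hh0 : 0 ≤ 1 - ‖z‖ ^ 2 := by nlinarith [norm_nonneg z]
  have hh1 : 1 - ‖z‖ ^ 2 ≤ 1 := by nlinarith [norm_nonneg z]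
  have hgf0 : 0 ≤ gf Z' z := zero_le_one.trans (one_le_gf Z' z)
  have huz := hu z
  have h5 : FF Z' u ψ G n γ z * (Real.exp (γ * (ρ * κ) ^ 2) * (7 / 16) ^ (4 * n)) ≤
      u z * (‖ψ z‖ ^ (4 * n) * ‖G z‖) * P * M2 ^ n := by
    have h51 : gf Z' z ^ n ≤ M2 ^ n := pow_le_pow_left₀ hgf0 hgf _
    have h52 : (1 - ‖z‖ ^ 2) ^ (4 * n) ≤ 1 := pow_le_one₀ hh0 hh1
    unfold FF
    rw [hP]
    calc u z * (‖ψ z‖ ^ (4 * n) * ‖G z‖) * gf Z' z ^ n * (1 - ‖z‖ ^ 2) ^ (4 * n) *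
          Real.exp (γ * ‖z‖ ^ 2) * (Real.exp (γ * (ρ * κ) ^ 2) * (7 / 16) ^ (4 * n))
        ≤ u z * (‖ψ z‖ ^ (4 * n) * ‖G z‖) * M2 ^ n * 1 *
          Real.exp (γ * ‖z‖ ^ 2) * (Real.exp (γ * (ρ * κ) ^ 2) * (7 / 16) ^ (4 * n)) := by
          gcongr
      _ = _ := by ring
  refine h5.trans ?_
  have h6 : u z * (‖ψ z‖ ^ (4 * n) * ‖G z‖) * P ≤ K * (S / P) * P :=
    mul_le_mul_of_nonneg_right hfin hP0.le
  have h7 : K * (S / P) * P = K * S := by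
    field_simp
  rw [h7] at h6
  exact mul_le_mul_of_nonneg_right h6 (by positivity)

theorem q1 {x : ℝ} (h0 : 0 ≤ x) (h1 : x < 1) : 0 < 1 - x ^ 2 := by nlinarith

theorem q2 (x : ℝ) : 1 - x ^ 2 ≤ 1 := by
  have := sq_nonneg x
  linarith

theorem q3 {x : ℝ} (h0 : 0 ≤ x) (h1 : x ≤ 1 / 2) : 3 / 4 ≤ 1 - x ^ 2 := by nlinarith

theorem q4 {x : ℝ} (h0 : 0 ≤ x) (h1 : x < 1) : x ^ 2 ≤ 1 := by nlinarith

theorem q5 {γ x : ℝ} (hγ : 0 ≤ γ) (h0 : 0 ≤ x) (h1 : x < 1) :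
    Real.exp (γ * x ^ 2) ≤ Real.exp γ := by
  apply Real.exp_le_exp.2
  have := q4 h0 h1
  calc γ * x ^ 2 ≤ γ * 1 := mul_le_mul_of_nonneg_left this hγ
    _ = γ := mul_one γ

theorem q6 {S K f p : ℝ} (hS : 0 < S) (hK : 0 < K) (hf : 0 ≤ f) (hfS : S / 2 < f)
    (hp : 4 * K ≤ p) (h : f * p ≤ K * S) : False := by
  have h1 : f * (4 * K) ≤ f * p := mul_le_mul_of_nonneg_left hp hf
  have h2 : S / 2 * (4 * K) < f * (4 * K) := mul_lt_mul_of_pos_right hfS (by positivity)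
  have h3 : 0 < K * S := by positivity
  linarith

theorem q7 {S K f p m : ℝ} (hS : 0 < S) (hK : 0 < K) (hm : 0 < m) (hf : 0 ≤ f) (hfS : S / 2 < f)
    (hp : 4 * K * m ≤ p) (h : f * p ≤ K * S * m) : False := by
  have h1 : f * (4 * K * m) ≤ f * p := mul_le_mul_of_nonneg_left hp hf
  have h2 : S / 2 * (4 * K * m) < f * (4 * K * m) := mul_lt_mul_of_pos_right hfS (by positivity)
  have h3 : 0 < K * S * m := by positivity
  linarith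

theorem q8 {m x : ℝ} (hm : 0 < m) (hx : 0 < x) (h : x < 1 / (4 * m)) : m < 1 / (4 * x) := by
  rw [lt_div_iff₀ (by positivity)] at h ⊢
  linarith

theorem q9 {x y : ℝ} (n : ℕ) (h : (4 / 3 : ℝ) ^ n * (x * (3 / 4) ^ n) ≤ (4 / 3) ^ n * y) :
    x ≤ (4 / 3) ^ n * y := by
  have h3 : (4 / 3 : ℝ) ^ n * (3 / 4) ^ n = 1 := by
    rw [← mul_pow]
    norm_num
  have h4 : (4 / 3 : ℝ) ^ n * (x * (3 / 4) ^ n) = ((4 / 3 : ℝ) ^ n * (3 / 4) ^ n) * x := by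
    ring
  rw [h4, h3, one_mul] at h
  exact h

end T4

open T4 in
theorem t4 : S_T1 → S_T3 → S_T4 := by
  intro hT1 hT3 κ K hκ0 hκ1 hK
  obtain ⟨g0, hg0⟩ : ∃ g0 : ℝ, g0 = (1 / 8192) ^ 2 / 12 * κ ^ 2 := ⟨_, rfl⟩
  have hg00 : 0 < g0 := by rw [hg0]; positivity
  obtain ⟨t, ht⟩ : ∃ t : ℝ, t = Real.exp (g0 / 2) := ⟨_, rfl⟩
  have ht1 : 1 < t := by
    rw [ht]
    exact Real.one_lt_exp_iff.2 (by positivity)
  obtain ⟨η, hη⟩ : ∃ η : ℝ, η = g0 / 16 := ⟨_, rfl⟩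
  obtain ⟨M, hM1, hM⟩ := hT3 η (by rw [hη]; positivity)
  obtain ⟨n, hn⟩ := pow_unbounded_of_one_lt (4 * K) ht1
  have hn0 : 0 < n := by
    rcases Nat.eq_zero_or_pos n with h | h
    · rw [h, pow_zero] at hn
      linarith
    · exact h
  obtain ⟨M2, hM2⟩ : ∃ M2 : ℝ, M2 = M * (4 / 3) ^ 4 := ⟨_, rfl⟩
  have hM20 : 0 < M2 := by rw [hM2]; positivity
  obtain ⟨ρ, hρ⟩ : ∃ ρ : ℝ, ρ = min (1 / 8) (1 / (4 * M2)) := ⟨_, rfl⟩
  have hρ0 : 0 < ρ := by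
    rw [hρ]
    exact lt_min (by norm_num) (by positivity)
  have hρ1 : ρ ≤ 1 / 8 := by rw [hρ]; exact min_le_left _ _
  have hρ2 : ρ ≤ 1 / (4 * M2) := by rw [hρ]; exact min_le_right _ _
  obtain ⟨R, hR⟩ : ∃ R : ℝ, R = 4 * K * M2 ^ n * (16 / 7) ^ (4 * n) := ⟨_, rfl⟩
  have hR0 : 0 < R := by rw [hR]; positivity
  obtain ⟨γ, hγ⟩ : ∃ γ : ℝ, γ = R / (ρ * κ) ^ 2 := ⟨_, rfl⟩
  have hγ0 : 0 ≤ γ := by rw [hγ]; positivity
  have hγR : R ≤ Real.exp (γ * (ρ * κ) ^ 2) := by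
    have h1 : γ * (ρ * κ) ^ 2 = R := by
      rw [hγ]
      field_simp
    rw [h1]
    have := Real.add_one_le_exp R
    linarith
  refine ⟨n, 2 * M ^ n * Real.exp γ * (4 / 3) ^ (4 * n), hn0, by positivity, ?_⟩
  intro Z u hZ hu hub hyp ψ G B hB hψ hG hZψ hbd s hs hsZ
  obtain ⟨Mu, hMu⟩ := hub
  have hMu0 : 0 ≤ Mu := (hu 0).trans (hMu 0)
  obtain ⟨Z', hZZ', hZ'Z, hZ'1, hZ'b⟩ := exists_Z' Z hZ
  obtain ⟨T, hT0, hT⟩ := bounded hψ hZψ hZ'Z hZ'1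
  obtain ⟨CG, hCG0, hCG⟩ := exists_bound (f := G) (fun z hz => (hG z hz).continuousAt.continuousWithinAt)
  obtain ⟨F, hF⟩ : ∃ F : ℂ → ℝ, F = FF Z' u ψ G n γ := ⟨_, rfl⟩
  obtain ⟨A, hA⟩ : ∃ A : Set ℂ, A = {z : ℂ | ‖z‖ < 1 ∧ z ∉ Z} := ⟨_, rfl⟩
  have hgf0 : ∀ z, 0 ≤ gf Z' z := fun z => zero_le_one.trans (one_le_gf Z' z)
  have hhp : ∀ z : ℂ, ‖z‖ < 1 → 0 < 1 - ‖z‖ ^ 2 := fun z hz => q1 (norm_nonneg z) hz
  have hF0 : ∀ z : ℂ, ‖z‖ < 1 → 0 ≤ F z := by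
    intro z hz
    rw [hF]
    unfold FF
    have h1 := hu z
    have h2 := hgf0 z
    have h3 := (hhp z hz).le
    positivity
  have hFb : ∀ z ∈ A, F z ≤ Mu * CG * T ^ n * Real.exp γ := by
    intro z hz
    rw [hA] at hz
    obtain ⟨hz1, hz2⟩ := hz
    have h1 := hT z hz1 hz2
    have h2 := hgf0 z
    have h3 := (hhp z hz1).le
    have h4 := hu z
    have h5 : ((‖ψ z‖ * (1 - ‖z‖ ^ 2)) ^ 4 * gf Z' z) ^ n ≤ T ^ n :=
      pow_le_pow_left₀ (by positivity) h1 _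
    have h6 : F z = u z * ‖G z‖ * ((‖ψ z‖ * (1 - ‖z‖ ^ 2)) ^ 4 * gf Z' z) ^ n *
        Real.exp (γ * ‖z‖ ^ 2) := by
      rw [hF]
      unfold FF
      rw [mul_pow, mul_pow, mul_pow, ← pow_mul, ← pow_mul]
      ring
    have h7 : Real.exp (γ * ‖z‖ ^ 2) ≤ Real.exp γ := q5 hγ0 (norm_nonneg z) hz1
    rw [h6]
    have h8 := hMu z
    have h9 := hCG z hz1.le
    gcongr
  have hbdd : BddAbove (F '' A) := ⟨_, by rintro _ ⟨z, hz, rfl⟩; exact hFb z hz⟩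
  have hsA : s ∈ A := by
    rw [hA]
    exact ⟨by linarith, hsZ⟩
  obtain ⟨S, hS⟩ : ∃ S, S = sSup (F '' A) := ⟨_, rfl⟩
  have hSle : ∀ z ∈ A, F z ≤ S := fun z hz => by
    rw [hS]
    exact le_csSup hbdd ⟨z, hz, rfl⟩
  have hS' : ∀ z : ℂ, ‖z‖ < 1 → z ∉ Z → FF Z' u ψ G n γ z ≤ S := by
    intro z hz1 hz2
    have := hSle z (by rw [hA]; exact ⟨hz1, hz2⟩)
    rw [hF] at this
    exact this
  -- the value at `s`
  have hsh : 3 / 4 ≤ 1 - ‖s‖ ^ 2 := q3 (norm_nonneg s) hs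
  have hsF : u s * (‖ψ s‖ ^ (4 * n) * ‖G s‖) * (3 / 4) ^ (4 * n) ≤ F s := by
    rw [hF]
    unfold FF
    have h1 := hu s
    have k1 : (1 : ℝ) ≤ gf Z' s ^ n := one_le_pow₀ (one_le_gf Z' s)
    have k2 : ((3 : ℝ) / 4) ^ (4 * n) ≤ (1 - ‖s‖ ^ 2) ^ (4 * n) :=
      pow_le_pow_left₀ (by norm_num) hsh _
    have k3 : 1 ≤ Real.exp (γ * ‖s‖ ^ 2) := Real.one_le_exp (by positivity)
    calc u s * (‖ψ s‖ ^ (4 * n) * ‖G s‖) * (3 / 4) ^ (4 * n)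
        = u s * (‖ψ s‖ ^ (4 * n) * ‖G s‖) * 1 * (3 / 4) ^ (4 * n) * 1 := by ring
      _ ≤ _ := by gcongr
  have hsF' : u s * (‖ψ s‖ ^ (4 * n) * ‖G s‖) ≤ (4 / 3) ^ (4 * n) * S := by
    have h1 : u s * (‖ψ s‖ ^ (4 * n) * ‖G s‖) * (3 / 4) ^ (4 * n) ≤ S :=
      hsF.trans (hSle s hsA)
    have h2 : (4 / 3 : ℝ) ^ (4 * n) * (u s * (‖ψ s‖ ^ (4 * n) * ‖G s‖) * (3 / 4) ^ (4 * n)) ≤
        (4 / 3) ^ (4 * n) * S := mul_le_mul_of_nonneg_left h1 (by positivity)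
    exact q9 (4 * n) h2
  suffices hmain : S ≤ 2 * M ^ n * Real.exp γ * B by
    refine hsF'.trans ?_
    have h1 : (4 / 3 : ℝ) ^ (4 * n) * S ≤ (4 / 3) ^ (4 * n) * (2 * M ^ n * Real.exp γ * B) :=
      mul_le_mul_of_nonneg_left hmain (by positivity)
    linarith
  by_contra hcon
  push Not at hcon
  have hSpos : 0 < S := lt_of_le_of_lt (by positivity) hcon
  -- a point where `F` is large
  obtain ⟨_, ⟨z, hzA, rfl⟩, hzS⟩ := exists_lt_of_lt_csSup (⟨F s, s, hsA, rfl⟩ : (F '' A).Nonempty)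
    (show S / 2 < sSup (F '' A) by rw [← hS]; linarith)
  have hzA' := hzA
  rw [hA] at hzA'
  obtain ⟨hz1, hz2⟩ := hzA'
  have hzZ' : z ∉ Z' := fun h => hz2 (hZ'Z z h hz1)
  have hh0 := hhp z hz1
  have hh1 : 1 - ‖z‖ ^ 2 ≤ 1 := q2 ‖z‖
  have hFz : F z = FF Z' u ψ G n γ z := by rw [hF]
  by_cases hcase : M < gf Z' z * (1 - ‖z‖ ^ 2) ^ 4
  · -- case A
    have hgf1 : 1 < gf Z' z := by
      have h1 : (1 - ‖z‖ ^ 2) ^ 4 ≤ 1 := pow_le_one₀ hh0.le hh1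
      have h2 : gf Z' z * (1 - ‖z‖ ^ 2) ^ 4 ≤ gf Z' z * 1 :=
        mul_le_mul_of_nonneg_left h1 (hgf0 z)
      linarith
    rcases gf_eq Z' z with h | ⟨a, ha, b, hb, hab, h⟩
    · rw [h] at hgf1
      exact lt_irrefl _ hgf1
    · have hza : z ≠ a := fun e => hzZ' (by rw [e]; exact ha)
      have hzb : z ≠ b := fun e => hzZ' (by rw [e]; exact hb)
      have h3 := hM Z' (fun c hc hc1 => hZ'b c (hZ'Z c hc hc1)) a ha b hb hab z hz1 hzZ' h hcase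
      have h4 := caseA hκ0 hκ1 hu hyp hψ hG hγ0 hg0 ht hη hS' hT1 ha hb hab hz1 hza hzb h hZZ' h3
      rw [← hFz] at h4
      exact q6 hSpos (by linarith) (hF0 z hz1) hzS hn.le h4
  · push Not at hcase
    rcases le_or_gt (1 / 2) ‖z‖ with hzh | hzh
    · -- case B
      have h1 := hbd z hzh hz1 hz2
      have h2 : (gf Z' z * (1 - ‖z‖ ^ 2) ^ 4) ^ n ≤ M ^ n := by
        apply pow_le_pow_left₀ _ hcase
        have := hgf0 z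
        positivity
      have h3 : Real.exp (γ * ‖z‖ ^ 2) ≤ Real.exp γ := q5 hγ0 (norm_nonneg z) hz1
      have h4 : F z = u z * (‖ψ z‖ ^ (4 * n) * ‖G z‖) * (gf Z' z * (1 - ‖z‖ ^ 2) ^ 4) ^ n *
          Real.exp (γ * ‖z‖ ^ 2) := by
        rw [hFz]
        unfold FF
        rw [mul_pow, ← pow_mul]
        ring
      have h5 : F z ≤ B * M ^ n * Real.exp γ := by
        rw [h4]
        have := hgf0 z
        gcongr
      linarith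
    · -- case C
      have hh : 3 / 4 ≤ 1 - ‖z‖ ^ 2 := q3 (norm_nonneg z) hzh.le
      have hgf : gf Z' z ≤ M2 := by
        have h1 : ((3 : ℝ) / 4) ^ 4 ≤ (1 - ‖z‖ ^ 2) ^ 4 := pow_le_pow_left₀ (by norm_num) hh _
        have h2 : gf Z' z * (3 / 4) ^ 4 ≤ gf Z' z * (1 - ‖z‖ ^ 2) ^ 4 :=
          mul_le_mul_of_nonneg_left h1 (hgf0 z)
        have h3 : gf Z' z * (3 / 4) ^ 4 ≤ M := h2.trans hcase
        rw [hM2]
        have h4 : gf Z' z = gf Z' z * (3 / 4) ^ 4 * (4 / 3) ^ 4 := by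
          rw [mul_assoc, ← mul_pow]
          norm_num
        rw [h4]
        gcongr
      have hfar : ∀ a ∈ Z, ρ ≤ ‖z - a‖ := by
        intro a ha
        by_contra hc
        push Not at hc
        have hza : z ≠ a := fun e => hz2 (by rw [e]; exact ha)
        obtain ⟨d, hd, hd1, hd2⟩ := hZ'b a ha
        have had : a ≠ d := by
          rintro rfl
          have := hZ a ha
          linarith
        have h1 := pf_ge hzh hd1 hd2 hza (by linarith)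
        have h2 := pf_le_gf (hZZ' a ha) hd had z
        have h3 : 0 < ‖z - a‖ := norm_pos_iff.2 (sub_ne_zero.2 hza)
        have h4 : ‖z - a‖ < 1 / (4 * M2) := by linarith
        have h5 : M2 < 1 / (4 * ‖z - a‖) := q8 hM20 h3 h4
        linarith
      have h4 := caseC hκ0 hκ1 hu hyp hψ hG hM20.le hρ0 hρ1 hS' hzh hgf hfar
      rw [← hFz] at h4
      have h5 : 4 * K * M2 ^ n ≤ Real.exp (γ * (ρ * κ) ^ 2) * (7 / 16) ^ (4 * n) := by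
        have h6 : R * (7 / 16) ^ (4 * n) ≤ Real.exp (γ * (ρ * κ) ^ 2) * (7 / 16) ^ (4 * n) := by
          gcongr
        have h7 : R * (7 / 16) ^ (4 * n) = 4 * K * M2 ^ n := by
          rw [hR, mul_assoc, ← mul_pow]
          norm_num
        linarith
      exact q7 hSpos (by linarith) (pow_pos hM20 n) (hF0 z hz1) hzS h5 h4

end Pool.Agent.H918.SS
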